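import Pool.Agent.W886.RU.Stm0

/-!
# The parity predicate is in `E²`
-/

set_option autoImplicit false

namespace Pool.Agent.W688.RU.PARE2

open Pool.Agent.W886.RU

variable {A : ℕ → Bool}

theorem of_eq {n : ℕ} {f g : (Fin n → ℕ) → ℕ} (hf : E2 A n f) (h : ∀ v, g v = f v) : E2 A n g := by
  have : g = f := funext h
  rw [this]; exact hf

theorem comp1 {n : ℕ} {g : (Fin 1 → ℕ) → ℕ} {f : (Fin n → ℕ) → ℕ} (hg : E2 A 1 g)
    (hf : E2 A n f) : E2 A n (fun v => g (fun _ => f v)) :=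
  E2.comp (hs := fun _ => f) hg (fun _ => hf)

theorem comp2 {n : ℕ} {g : (Fin 2 → ℕ) → ℕ} {f₁ f₂ : (Fin n → ℕ) → ℕ} (hg : E2 A 2 g)
    (h₁ : E2 A n f₁) (h₂ : E2 A n f₂) : E2 A n (fun v => g ![f₁ v, f₂ v]) := by
  refine of_eq (E2.comp (hs := ![f₁, f₂]) hg ?_) ?_
  · intro i
    fin_cases i
    · exact h₁
    · exact h₂
  · intro v
    congr 1
    funext i
    fin_cases i <;> rfl

theorem succ' {n : ℕ} {f : (Fin n → ℕ) → ℕ} (hf : E2 A n f) : E2 A n (fun v => f v + 1) :=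
  comp1 (g := fun v => v 0 + 1) E2.succ hf

theorem one (n : ℕ) : E2 A n (fun _ => 1) := of_eq (succ' (E2.zero n)) (fun _ => rfl)

theorem mulp {n : ℕ} {f g : (Fin n → ℕ) → ℕ} (hf : E2 A n f) (hg : E2 A n g) :
    E2 A n (fun v => (f v + 1) * (g v + 1)) :=
  of_eq (comp2 (g := fun v => (v 0 + 1) * (v 1 + 1)) E2.mul hf hg) (fun _ => rfl)

theorem add0 : E2 A 2 (fun v => v 0 + v 1) := by
  refine E2.lrec (n := 1) (g := fun v => v 0) (h := fun v => v 0 + 1)
    (b := fun v => (v 0 + 1) * (v 1 + 1)) (E2.proj 0) (succ' (E2.proj 0)) E2.mul ?_ ?_ ?_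
  · intro v; nlinarith
  · intro v; simp
  · intro v y; simp; omega

theorem add {n : ℕ} {f g : (Fin n → ℕ) → ℕ} (hf : E2 A n f) (hg : E2 A n g) :
    E2 A n (fun v => f v + g v) :=
  of_eq (comp2 (g := fun v => v 0 + v 1) add0 hf hg) (fun _ => rfl)

theorem mul0 : E2 A 2 (fun v => v 0 * v 1) := by
  refine E2.lrec (n := 1) (g := fun _ => 0) (h := fun v => v 0 + v 2)
    (b := fun v => (v 0 + 1) * (v 1 + 1)) (E2.zero 1) (add (E2.proj 0) (E2.proj 2)) E2.mul ?_ ?_ ?_
  · intro v; nlinarith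
  · intro v; simp
  · intro v y
    show (y + 1) * v 0 = y * v 0 + v 0
    ring

theorem mul {n : ℕ} {f g : (Fin n → ℕ) → ℕ} (hf : E2 A n f) (hg : E2 A n g) :
    E2 A n (fun v => f v * g v) :=
  of_eq (comp2 (g := fun v => v 0 * v 1) mul0 hf hg) (fun _ => rfl)

theorem neg0 : E2 A 1 (fun v => 1 - v 0) := by
  refine E2.lrec (n := 0) (g := fun _ => 1) (h := fun _ => 0)
    (b := fun _ => 1) (one 0) (E2.zero 2) (one 1) ?_ ?_ ?_
  · intro v; show 1 - v 0 ≤ 1; omega
  · intro v; simp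
  · intro v y; simp

theorem neg {n : ℕ} {f : (Fin n → ℕ) → ℕ} (hf : E2 A n f) : E2 A n (fun v => 1 - f v) :=
  comp1 (g := fun v => 1 - v 0) neg0 hf

theorem chi {n : ℕ} {f : (Fin n → ℕ) → ℕ} (hf : E2 A n f) :
    E2 A n (fun v => (A (f v)).toNat) :=
  comp1 (g := fun v => (A (v 0)).toNat) E2.orc hf

/-- the parity of an initial segment -/
def PF (A : ℕ → Bool) (y x : ℕ) : ℕ :=
  ((Finset.range y).filter (fun w => A (x ^ 2 + w) = true)).card % 2

theorem PF_succ (y x : ℕ) :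
    PF A (y + 1) x = (1 - PF A y x) * (A (x * x + y)).toNat + PF A y x * (1 - (A (x * x + y)).toNat) := by
  unfold PF
  rw [Finset.range_add_one, Finset.filter_insert]
  have hx : x ^ 2 = x * x := by ring
  rw [hx]
  have hlt := Nat.mod_lt ((Finset.range y).filter (fun w => A (x * x + w) = true)).card
    (by norm_num : 0 < 2)
  by_cases h : A (x * x + y) = true
  · rw [if_pos h, Finset.card_insert_of_notMem (by simp), h]
    simp only [Bool.toNat_true]
    omega
  · rw [if_neg h]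
    have h' : A (x * x + y) = false := by simpa using h
    rw [h']
    simp

theorem PF0 : E2 A 2 (fun v => PF A (v 0) (v 1)) := by
  refine E2.lrec (n := 1) (g := fun _ => 0)
    (h := fun v => (1 - v 0) * (A (v 2 * v 2 + v 1)).toNat + v 0 * (1 - (A (v 2 * v 2 + v 1)).toNat))
    (b := fun _ => 1) (E2.zero 1) ?_ (one 2) ?_ ?_ ?_
  · have hc : E2 A 3 (fun v => (A (v 2 * v 2 + v 1)).toNat) :=
      chi (add (mul (E2.proj 2) (E2.proj 2)) (E2.proj 1))
    exact add (mul (neg (E2.proj 0)) hc) (mul (E2.proj 0) (neg hc))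
  · intro v
    show PF A (v 0) (v 1) ≤ 1
    unfold PF
    omega
  · intro v
    show PF A 0 (v 0) = 0
    simp [PF]
  · intro v y
    exact PF_succ y (v 0)

theorem task : S_PARE2 := by
  intro A
  refine ⟨fun v => 1 - PF A (v 0) (v 0), ?_, ?_⟩
  · exact neg (of_eq (comp2 (g := fun v => PF A (v 0) (v 1)) PF0 (E2.proj 0) (E2.proj 0))
      (fun _ => rfl))
  · intro v
    have h : Par A (v 0) ↔ PF A (v 0) (v 0) = 1 := Nat.odd_iff
    have h2 : PF A (v 0) (v 0) < 2 := Nat.mod_lt _ (by norm_num)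
    constructor
    · intro hp
      have := h.1 hp
      simp only
      omega
    · intro hp
      have : PF A (v 0) (v 0) ≠ 1 := fun hh => hp (h.2 hh)
      simp only
      omega

end Pool.Agent.W688.RU.PARE2
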