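import Pool.Agent.W886.RU.Stm2

/-!
# Spectra depend on polynomially many elements of the set
-/

set_option autoImplicit false

namespace Pool.Agent.W688.RU.SPL

open Pool.Agent.W886.RU
open FirstOrder FirstOrder.Language

theorem sum_bound (n : ℕ) : ∀ (k : ℕ) (a : Fin k → Fin n),
    (∑ i : Fin k, (a i : ℕ) * n ^ (i : ℕ)) + 1 ≤ (n + 1) ^ k := by
  intro k
  induction k with
  | zero => intro a; simp
  | succ k ih =>
    intro a
    rw [Fin.sum_univ_castSucc]
    have h := ih (fun i => a i.castSucc)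
    simp only [Fin.val_castSucc, Fin.val_last]
    have h1 : (a (Fin.last k) : ℕ) ≤ n := (a (Fin.last k)).2.le
    have h2 : n ^ k ≤ (n + 1) ^ k := Nat.pow_le_pow_left (by omega) k
    have h3 : (a (Fin.last k) : ℕ) * n ^ k ≤ n * (n + 1) ^ k := Nat.mul_le_mul h1 h2
    have h4 : (n + 1) ^ (k + 1) = (n + 1) ^ k + n * (n + 1) ^ k := by ring
    rw [h4]
    omega

theorem sum_lt (n k : ℕ) (a : Fin k → Fin n) :
    (∑ i : Fin k, (a i : ℕ) * n ^ (i : ℕ)) < (n + 2) ^ k := by
  have h := sum_bound n k a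
  have h2 : (n + 1) ^ k ≤ (n + 2) ^ k := Nat.pow_le_pow_left (by omega) k
  omega

/-- the joint structure -/
@[reducible] def st {n : ℕ} (S : Voc.Structure (Fin n)) (A : ℕ → Bool) :
    (Voc.sum OVoc).Structure (Fin n) :=
  @Language.sumStructure Voc OVoc (Fin n) S (std A n)

theorem term_eq {n : ℕ} (S : Voc.Structure (Fin n)) (A A' : ℕ → Bool) {α : Type}
    (v : α → Fin n) (t : (Voc.sum OVoc).Term α) :
    @Term.realize (Voc.sum OVoc) (Fin n) (st S A) α v t =
      @Term.realize (Voc.sum OVoc) (Fin n) (st S A') α v t := by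
  induction t with
  | var a => rfl
  | func f ts ih =>
    rcases f with f | f
    · show @Structure.funMap Voc (Fin n) S _ f (fun i =>
        @Term.realize (Voc.sum OVoc) (Fin n) (st S A) α v (ts i)) =
        @Structure.funMap Voc (Fin n) S _ f (fun i =>
        @Term.realize (Voc.sum OVoc) (Fin n) (st S A') α v (ts i))
      congr 1
      funext i
      exact ih i
    · exact f.elim

theorem main {α : Type} {k : ℕ} (φ : (Voc.sum OVoc).BoundedFormula α k) :
    ∃ d : ℕ, ∀ (n : ℕ) (A A' : ℕ → Bool), (∀ y < (n + 2) ^ d, A y = A' y) →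
      ∀ (S : Voc.Structure (Fin n)) (v : α → Fin n) (xs : Fin k → Fin n),
      (@BoundedFormula.Realize (Voc.sum OVoc) (Fin n) (st S A) α k φ v xs ↔
        @BoundedFormula.Realize (Voc.sum OVoc) (Fin n) (st S A') α k φ v xs) := by
  induction φ with
  | falsum => exact ⟨0, fun n A A' _ S v xs => Iff.rfl⟩
  | equal t₁ t₂ =>
    refine ⟨0, fun n A A' _ S v xs => ?_⟩
    show (_ = _) ↔ (_ = _)
    rw [term_eq S A A' _ t₁, term_eq S A A' _ t₂]
  | rel R ts =>
    rcases R with R | R
    · refine ⟨0, fun n A A' _ S v xs => ?_⟩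
      show @Structure.RelMap Voc (Fin n) S _ R (fun i => _) ↔
        @Structure.RelMap Voc (Fin n) S _ R (fun i => _)
      have : (fun i => @Term.realize (Voc.sum OVoc) (Fin n) (st S A) _ (Sum.elim v xs) (ts i)) =
        (fun i => @Term.realize (Voc.sum OVoc) (Fin n) (st S A') _ (Sum.elim v xs) (ts i)) := by
        funext i
        exact term_eq S A A' _ _
      rw [this]
    · rename_i l
      refine ⟨l, fun n A A' hA S v xs => ?_⟩
      show @Structure.RelMap OVoc (Fin n) (std A n) _ R (fun i => _) ↔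
        @Structure.RelMap OVoc (Fin n) (std A' n) _ R (fun i => _)
      have : (fun i => @Term.realize (Voc.sum OVoc) (Fin n) (st S A) _ (Sum.elim v xs) (ts i)) =
        (fun i => @Term.realize (Voc.sum OVoc) (Fin n) (st S A') _ (Sum.elim v xs) (ts i)) := by
        funext i
        exact term_eq S A A' _ _
      rw [this]
      generalize (fun i => @Term.realize (Voc.sum OVoc) (Fin n) (st S A') _ (Sum.elim v xs) (ts i))
        = a
      cases R with
      | le => exact Iff.rfl
      | orc =>
        show (A _ = true) ↔ (A' _ = true)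
        rw [hA _ (sum_lt n l a)]
  | imp φ₁ φ₂ ih₁ ih₂ =>
    obtain ⟨d₁, h₁⟩ := ih₁
    obtain ⟨d₂, h₂⟩ := ih₂
    refine ⟨max d₁ d₂, fun n A A' hA S v xs => ?_⟩
    have e₁ := h₁ n A A' (fun y hy => hA y (lt_of_lt_of_le hy
      (Nat.pow_le_pow_right (by omega) (le_max_left _ _)))) S v xs
    have e₂ := h₂ n A A' (fun y hy => hA y (lt_of_lt_of_le hy
      (Nat.pow_le_pow_right (by omega) (le_max_right _ _)))) S v xs
    exact imp_congr e₁ e₂
  | all φ ih =>
    obtain ⟨d, h⟩ := ih
    refine ⟨d, fun n A A' hA S v xs => ?_⟩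
    exact forall_congr' (fun x => h n A A' hA S v _)

theorem task : S_SPL := by
  intro φ
  obtain ⟨d, h⟩ := main φ
  refine ⟨d, fun n A A' hA => ?_⟩
  refine and_congr Iff.rfl (exists_congr fun S => ?_)
  exact h n A A' hA S default default

end Pool.Agent.W688.RU.SPL
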